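import Pool.Agent.Y499.HC.ProjRound
import Pool.Agent.Y502.HC.Frame
import Pool.Agent.Y888.HC.Det
import Pool.Agent.Y331.HC.Pos
import Pool.Agent.Y64.HC.Ptw
import Pool.Agent.Y454.HC.Avge
import Pool.Agent.Y908.HC.Inv2

/-! # Short noncontractible curves for metrics on `RP^(d+1)` in Fermi coordinates of a hyperplane

Let `d ≥ 2`. The projective space `RP^(d+1)` without a point is the quotient of `(-L, L) × S^d` by
`(s, x) ↦ (-s, -x)`; the standard metric is `ds² + cos² s g_round`, `L = π/2`. If the volume of the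
metric `ds² + k(s, x)² g_round`, where `k` is an arbitrary positive function of both variables, is
at most that of the standard metric, then its systole is at most `π`, and it is less than `π` unless
the metric is the standard metric. -/

set_option autoImplicit false

open Real Set MeasureTheory Metric
open scoped ENNReal

namespace Pool.Agent.Results.MP_02f065_gt.FermiProjective

open Pool.Agent.Y499.HC Pool.Agent.Y499.HR Pool.Agent.Y499.HP

theorem result (d : ℕ) (hd : 2 ≤ d) (L : ℝ) (hL : 0 < L)
    (k : ℝ → EuclideanSpace ℝ (Fin (d + 1)) → ℝ) (hk : IsSlice d L k)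
    (hV : projVol d L k ≤ hemiCollar d (π / 2)) :
    sysK d L k ≤ ENNReal.ofReal π ∧
    (sysK d L k = ENNReal.ofReal π →
      L = π / 2 ∧ ∀ s ∈ Ioo (-L) L, ∀ x ∈ sphere (0 : EuclideanSpace ℝ (Fin (d + 1))) 1,
        k s x = Real.cos s) := by
  have hF := Pool.Agent.Y502.HC.t_FRAME
  have hP := Pool.Agent.Y64.HC.t_PTW
  have hA := Pool.Agent.Y454.HC.t_AVGE
  have hI := Pool.Agent.Y908.HC.t_INV2
  have hO := Pool.Agent.Y331.HC.t_POS
  have hD := Pool.Agent.Y888.HC.t_DET
  have key : ENNReal.ofReal π ≤ sysK d L k →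
      L = π / 2 ∧ ∀ s ∈ Ioo (-L) L, ∀ x ∈ sphere (0 : EuclideanSpace ℝ (Fin (d + 1))) 1,
        k s x = Real.cos s := by
    intro h
    have h2L : π / 2 ≤ L := by
      have h1 := h.trans (sysK_le k)
      rw [ENNReal.ofReal_le_ofReal_iff (by positivity)] at h1
      linarith
    have hS : SysGe d L k := by
      intro l s y hl hs hy hsR hy1 hs0 hyl
      have h1 := sysK_atLeast (k := k) l s y hl hs hy hsR hy1 hs0 hyl
      refine le_trans ?_ h1
      have htop : sysK d L k ≠ ⊤ := ne_top_of_le_ne_top ENNReal.ofReal_ne_top (sysK_le k)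
      exact (ENNReal.ofReal_le_iff_le_toReal htop).1 h
    have h3 := proj_main hF hP hA hI hO hD hd h2L hk hS
    exact h3.2.1 (le_antisymm hV h3.1)
  refine ⟨?_, fun h => key h.ge⟩
  by_contra hlt
  have h1 := key (not_le.1 hlt).le
  apply hlt
  have h2 := sysK_le (L := L) k
  rw [h1.1, mul_div_cancel₀ _ (two_ne_zero)] at h2
  rw [h1.1]
  exact h2

end Pool.Agent.Results.MP_02f065_gt.FermiProjective
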